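import Pool.Agent.R957.BRW.Tools

/-!
# Fixed points of multitype branching processes: `S = Ext` or `|S| = 2^ℵ₀`

No irreducibility is assumed. `pop x ω n` (generation `n` started from one individual of type `x`),
`law μ` (independent offspring vectors, those of individuals of type `y` with law `μ y`) and
`gen μ` (the generating function `G`) are those of the starting library
`Pool.Agent.H632R3.BranchGen`; `qExt`, `extSet`, `fixSet` are in `Pool.Agent.R957.BRW.Defs`.
-/

namespace Pool.Agent.Results.MP_f48e0c_pr.ExtOrContinuum

open Pool.Agent.R957.BRW

/-- For every multitype branching process with countably many types, irreducible or not, either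
every fixed point of the generating function in `[0,1]^X` is an extinction probability vector
`q(A)`, or the set of fixed points has the cardinality of the continuum. In particular, if the
set of fixed points is finite, then it equals the set of extinction probability vectors. -/
theorem result (X : Type) [Countable X] (μ : X → PMF (X →₀ ℕ)) :
    (fixSet μ = extSet μ ∨ Cardinal.mk (fixSet μ) = Cardinal.continuum) ∧
      ((fixSet μ).Finite → fixSet μ = extSet μ) := by
  have h : fixSet μ = extSet μ ∨ Cardinal.mk (fixSet μ) = Cardinal.continuum := by
    by_cases hne : extSet μ = fixSet μ
    · exact Or.inl hne.symm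
    · exact Or.inr (main μ hne)
  refine ⟨h, fun hfin => ?_⟩
  rcases h with h | h
  · exact h
  · have h2 := Cardinal.lt_aleph0_iff_set_finite.mpr hfin
    rw [h] at h2
    exact absurd h2 (not_lt.mpr Cardinal.aleph0_le_continuum)

end Pool.Agent.Results.MP_f48e0c_pr.ExtOrContinuum
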